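import Mathlib

namespace Pool.Agent.Results.MP_c60ead_co.Counter

open Finset Equiv

/-- `Y ⊆ S_n` is `k`-transitive: the number of `y ∈ Y` sending a `k`-tuple of distinct points to
another one is a constant `r > 0`. -/
def KTrans (n k : ℕ) (Y : Finset (Perm (Fin n))) : Prop :=
  ∃ r : ℕ, 0 < r ∧ ∀ a b : Fin k ↪ Fin n, (Y.filter (fun y => ∀ i, y (a i) = b i)).card = r

def YY (m : ℕ) : Finset (Perm (Fin (m + 1))) := univ.filter (fun y => Perm.sign y = 1 ↔ y 0 = 0)

def FF {n k : ℕ} (a b : Fin k ↪ Fin n) : Finset (Perm (Fin n)) :=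
  univ.filter (fun y => ∀ i, y (a i) = b i)

lemma FF_card {n k : ℕ} (a b a' b' : Fin k ↪ Fin n) : (FF a b).card = (FF a' b').card := by
  obtain ⟨σ, hσ⟩ := Perm.exists_extending_pair _ _ a'.injective a.injective
  obtain ⟨τ, hτ⟩ := Perm.exists_extending_pair _ _ b.injective b'.injective
  refine card_bij' (fun y _ => τ * y * σ) (fun y _ => τ⁻¹ * y * σ⁻¹) ?_ ?_ ?_ ?_
  · intro y hy
    simp only [FF, mem_filter, mem_univ, true_and] at hy ⊢
    intro i
    simp [hσ, hy, hτ]
  · intro y hy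
    simp only [FF, mem_filter, mem_univ, true_and] at hy ⊢
    intro i
    rw [← hσ i]
    simp [hy, ← hτ]
  · intro y _; group
  · intro y _; group

lemma half {m k : ℕ} (hk : k + 2 ≤ m) (a b : Fin k ↪ Fin (m + 1)) :
    2 * ((YY m).filter (fun y => ∀ i, y (a i) = b i)).card = (FF a b).card := by
  have h1 : 1 < ((insert 0 (univ.map a))ᶜ : Finset (Fin (m + 1))).card := by
    rw [card_compl, Fintype.card_fin]
    have := card_insert_le (0 : Fin (m + 1)) (univ.map a)
    rw [card_map, card_univ, Fintype.card_fin] at this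
    omega
  obtain ⟨p, hp, q, hq, hpq⟩ := one_lt_card.1 h1
  simp only [mem_compl, mem_insert, mem_map, mem_univ, true_and, not_or, not_exists] at hp hq
  have sa : ∀ i, swap p q (a i) = a i := fun i => swap_apply_of_ne_of_ne (hp.2 i) (hq.2 i)
  have s0 : swap p q 0 = 0 := swap_apply_of_ne_of_ne (Ne.symm hp.1) (Ne.symm hq.1)
  have sg : ∀ y : Perm (Fin (m + 1)), Perm.sign (y * swap p q) = 1 ↔ ¬ Perm.sign y = 1 := by
    intro y
    rw [Perm.sign_mul, Perm.sign_swap hpq]
    rcases Int.units_eq_one_or (Perm.sign y) with h | h <;> simp [h]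
  have e1 : (YY m).filter (fun y => ∀ i, y (a i) = b i) =
      (FF a b).filter (fun y => Perm.sign y = 1 ↔ y 0 = 0) := by
    ext y; simp only [YY, FF, mem_filter, mem_univ, true_and]; tauto
  have e2 : ((FF a b).filter (fun y => Perm.sign y = 1 ↔ y 0 = 0)).card =
      ((FF a b).filter (fun y => ¬ (Perm.sign y = 1 ↔ y 0 = 0))).card := by
    refine card_bij' (fun y _ => y * swap p q) (fun y _ => y * swap p q) ?_ ?_ ?_ ?_
    · intro y hy
      simp only [FF, mem_filter, mem_univ, true_and, sg, Perm.mul_apply, sa, s0] at hy ⊢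
      tauto
    · intro y hy
      simp only [FF, mem_filter, mem_univ, true_and, sg, Perm.mul_apply, sa, s0] at hy ⊢
      tauto
    · intro y _; simp [mul_assoc]
    · intro y _; simp [mul_assoc]
  rw [e1, two_mul]
  conv_lhs => rhs; rw [e2]
  exact card_filter_add_card_filter_not _

theorem result (n : ℕ) (hn : 4 ≤ n) : ∃ Y : Finset (Perm (Fin n)),
    (∀ k, k + 3 ≤ n → KTrans n k Y) ∧ KTrans n ((n - 2) / 2) Y ∧
    (∃ y ∈ Y, Perm.sign y = -1) ∧ (∃ y ∈ Y, Perm.sign y = 1) ∧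
    (∃ y ∉ Y, Perm.sign y = -1) ∧ (∃ y ∉ Y, Perm.sign y = 1) := by
  obtain ⟨m, rfl⟩ : ∃ m, n = m + 3 + 1 := ⟨n - 4, by omega⟩
  have key : ∀ k, k + 3 ≤ m + 3 + 1 → KTrans (m + 3 + 1) k (YY (m + 3)) := by
    intro k hk
    let a0 : Fin k ↪ Fin (m + 3 + 1) := Fin.castLEEmb (by omega)
    have h0 := half (by omega) a0 a0
    have hpos : 0 < (FF a0 a0).card := card_pos.2 ⟨1, by simp [FF]⟩
    refine ⟨((YY (m + 3)).filter (fun y => ∀ i, y (a0 i) = a0 i)).card, by omega, fun a b => ?_⟩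
    have h1 := half (by omega) a b
    have h2 := FF_card a b a0 a0
    omega
  have n01 : (0 : Fin (m + 3 + 1)) ≠ 1 := by simp
  have n12 : (1 : Fin (m + 3 + 1)) ≠ 2 := by
    intro h; have := congrArg Fin.val h; simp at this
    rw [Nat.mod_eq_of_lt (by omega)] at this; omega
  have n02 : (0 : Fin (m + 3 + 1)) ≠ 2 := by
    intro h; have := congrArg Fin.val h; simp at this
    rw [Nat.mod_eq_of_lt (by omega)] at this; omega
  have s12 : swap (1 : Fin (m + 3 + 1)) 2 0 = 0 := swap_apply_of_ne_of_ne n01 n02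
  refine ⟨YY (m + 3), key, key _ (by omega), ⟨swap 0 1, ?_, Perm.sign_swap n01⟩,
    ⟨1, by simp [YY], by simp⟩, ⟨swap 1 2, ?_, Perm.sign_swap n12⟩,
    ⟨swap 0 1 * swap 1 2, ?_, ?_⟩⟩
  · simp [YY, Perm.sign_swap n01]
  · simp [YY, Perm.sign_swap n12, s12]
  · simp [YY, Perm.sign_swap n12, Perm.sign_swap n01, s12]
  · simp [Perm.sign_swap n12, Perm.sign_swap n01]

end Pool.Agent.Results.MP_c60ead_co.Counter
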